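import Pool.Agent.ARC.Stmts
import Pool.Agent.Helper40_ZES.MIX
import Pool.Agent.Helper19_ZES.SZS

namespace Pool.Agent.ARC.H40

open scoped BigOperators InnerProductSpace
open Pool.Agent.THS Pool.Agent.ZES

theorem arf (hG : SZG.Szg3Statement) (hZ : ZetStmt) (h2 : ThsStatement) (hA : AroStatement) :
    ArcStatement := by
  intro g σ G
  have hσ : 0 ≤ max σ 0 := le_max_right _ _
  obtain ⟨n, hn⟩ := hG g (3 * max σ 0) G
  obtain ⟨nA, hnA⟩ := hA g (3 * max σ 0)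
  obtain ⟨l, hl1, hl2⟩ := Nat.exists_infinite_primes (n + nA + 3)
  have hodd : Odd l := hl2.odd_of_ne_two (by omega)
  obtain ⟨c1, hc1, hn⟩ := hn l hl2 hodd
  refine ⟨l, hl2, hodd, fun c d hc => ?_⟩
  obtain ⟨B1, hB1⟩ := hn d
  obtain ⟨B2, hB2⟩ := h2 g d c (3 * max σ 0) hc
  have hl0 : 1 ≤ l ^ 2 := Nat.one_le_pow _ _ (by omega)
  obtain ⟨B3, hB3⟩ := hZ g (4 * l ^ 2) ⟨2 * l ^ 2, by ring⟩ (by omega)
  obtain ⟨B4, hB4⟩ := hnA l hl2 hodd (by omega) d
  refine ⟨B1 + B2 + c1 * B3 + B3 + B4 + 1, ?_⟩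
  intro K _ _ hd φ τ hτ z hz S T ev t m lam h hlam hh hlq x hx hT hS hH
  have hTn : 0 ≤ ∑ v ∈ T, lN v := Finset.sum_nonneg fun v _ => ZES.H40.lN_nonneg v
  have hSn : 0 ≤ ∑ v ∈ S, (ev v : ℝ) / (t v : ℝ) * lN v :=
    Finset.sum_nonneg fun v _ => mul_nonneg (div_nonneg (Nat.cast_nonneg _) (Nat.cast_nonneg _))
      (ZES.H40.lN_nonneg v)
  have hH' : Real.log (Height.mulHeight (x 0))
      ≤ max σ 0 * (∑ v ∈ T, lN v + ∑ v ∈ S, (ev v : ℝ) / (t v : ℝ) * lN v + lam) :=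
    hH.trans (mul_le_mul_of_nonneg_right (le_max_left _ _) (add_nonneg (add_nonneg hTn hSn) hlam))
  by_cases hcase : ∑ v ∈ S, (ev v : ℝ) / (t v : ℝ) * lN v ≤ ∑ v ∈ T, lN v ∧ lam ≤ ∑ v ∈ T, lN v
  · -- toric case
    left
    have h3 := hB2 K hd φ τ hτ z hz (fun k => x (k, 0, 0)) (fun k => (hx (k, 0, 0) (Or.inr rfl)).1)
      (fun k => by
        obtain ⟨μ, hμ⟩ := (hx (k, 0, 0) (Or.inr rfl)).2
        refine ⟨μ, fun ab => ?_⟩
        rw [hμ ab]
        congr 1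
        congr 1
        funext r
        simp [SZG.gam])
      T (fun v hv => (hT v hv).1) (fun v hv k => (hT v hv).2 k) (by
        show Real.log (Height.mulHeight (x (0, 0, 0))) ≤ _
        have h0 : ((0, 0, 0) : SZG.Idx g) = 0 := rfl
        rw [h0]
        refine hH'.trans ?_
        have h5 : ∑ v ∈ T, lN v + ∑ v ∈ S, (ev v : ℝ) / (t v : ℝ) * lN v + lam
            ≤ 3 * ∑ v ∈ T, lN v := by linarith [hcase.1, hcase.2]
        calc max σ 0 * (∑ v ∈ T, lN v + ∑ v ∈ S, (ev v : ℝ) / (t v : ℝ) * lN v + lam)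
            ≤ max σ 0 * (3 * ∑ v ∈ T, lN v) := mul_le_mul_of_nonneg_left h5 hσ
          _ = 3 * max σ 0 * ∑ v ∈ T, lN v := by ring)
    obtain ⟨M, hM1, hM2, hM3⟩ := h3
    exact ⟨M, hM1, by omega, hM3⟩
  by_cases hcase2 : lam ≤ ∑ v ∈ S, (ev v : ℝ) / (t v : ℝ) * lN v
  · -- general places
    have hST : ∑ v ∈ T, lN v < ∑ v ∈ S, (ev v : ℝ) / (t v : ℝ) * lN v := by
      by_contra hne
      push Not at hne
      exact hcase ⟨hne, hcase2.trans hne⟩
    have hSne : S.Nonempty := by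
      by_contra hne
      rw [Finset.not_nonempty_iff_eq_empty] at hne
      rw [hne, Finset.sum_empty] at hST
      linarith
    rcases Nat.eq_zero_or_pos g with hg | hg
    · subst hg
      left
      exact ⟨1, le_refl _, by omega, fun _ => 0, fun _ => 0, fun i => i.elim0⟩
    have hx' : ∀ i : SZG.Idx g, x i ≠ 0 ∧
      ∃ μ : ℂ, ∀ ab, φ (x i ab) = μ * Vab τ ab.1 ab.2 (SZG.gam τ z l i) :=
      fun i => hx i (Or.inl (Or.inl hSne))
    rcases hB1 K hd φ τ hτ z hz x (fun i => (hx' i).1) (fun i => (hx' i).2) S ev t m hS (by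
        refine hH'.trans ?_
        have h5 : ∑ v ∈ T, lN v + ∑ v ∈ S, (ev v : ℝ) / (t v : ℝ) * lN v + lam
            ≤ 3 * ∑ v ∈ S, (ev v : ℝ) / (t v : ℝ) * lN v := by linarith
        calc max σ 0 * (∑ v ∈ T, lN v + ∑ v ∈ S, (ev v : ℝ) / (t v : ℝ) * lN v + lam)
            ≤ max σ 0 * (3 * ∑ v ∈ S, (ev v : ℝ) / (t v : ℝ) * lN v) :=
              mul_le_mul_of_nonneg_left h5 hσ
          _ = 3 * max σ 0 * ∑ v ∈ S, (ev v : ℝ) / (t v : ℝ) * lN v := by ring)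
      with ⟨M, hM1, hM2, hM3⟩ | ⟨F, hF1, hF2⟩
    · left
      exact ⟨M, hM1, by omega, hM3⟩
    have hpos : 0 < 2 ^ g * l ^ (2 * g) - n * l ^ (2 * g - 1) := by
      have e1 : l ^ (2 * g) = l * l ^ (2 * g - 1) := by
        rw [← pow_succ']
        congr 1
        omega
      have e2 : 0 < l ^ (2 * g - 1) := pow_pos (by omega) _
      have e3 : 1 ≤ 2 ^ g := Nat.one_le_two_pow
      have e4 : n * l ^ (2 * g - 1) < 2 ^ g * l ^ (2 * g) := by
        rw [e1]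
        calc n * l ^ (2 * g - 1) < l * l ^ (2 * g - 1) :=
              Nat.mul_lt_mul_of_pos_right (by omega) e2
          _ = 1 * (l * l ^ (2 * g - 1)) := (one_mul _).symm
          _ ≤ 2 ^ g * (l * l ^ (2 * g - 1)) := Nat.mul_le_mul_right _ e3
      omega
    obtain ⟨hdiff, hper, hvan⟩ := hF2 ⟨0, hpos⟩
    have hne := hF1.ne_zero ⟨0, hpos⟩
    generalize F ⟨0, hpos⟩ = F0 at hdiff hper hvan hne
    have hRR : F0 ∈ RR τ (2 * (4 * l ^ 2)) := by
      refine ⟨hdiff, fun w p q => ?_⟩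
      have h1 := hper w p q
      have e1 : F0 (w + pr τ p q) = F0 (fun i => w i + ((p i : ℂ) + ∑ j, τ i j * (q j : ℂ))) := rfl
      rw [e1, h1]
      congr 2
      push_cast
      ring
    obtain ⟨y, hy⟩ := Function.ne_iff.1 hne
    have hz1 : ∃ N : ℕ, 0 < N ∧ InLat τ (fun i => (N : ℂ) * (c1 • z) i) := by
      obtain ⟨N, hN, p, q, hpq⟩ := hz
      refine ⟨N, hN, fun i => (c1 : ℤ) * p i, fun i => (c1 : ℤ) * q i, fun i => ?_⟩
      have h4 : (N : ℂ) * z i = (p i : ℂ) + ∑ j, τ i j * (q j : ℂ) := hpq i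
      have h5 : (N : ℂ) * (c1 • z) i = (c1 : ℂ) * ((N : ℂ) * z i) := by
        rw [Pi.smul_apply, nsmul_eq_mul]
        ring
      show (N : ℂ) * (c1 • z) i = (((c1 : ℤ) * p i : ℤ) : ℂ)
        + ∑ j, τ i j * (((c1 : ℤ) * q j : ℤ) : ℂ)
      rw [h5, h4, mul_add, Finset.mul_sum]
      push_cast
      congr 1
      refine Finset.sum_congr rfl fun j _ => ?_
      ring
    have hvan1 : ∀ k : ℕ, F0 (fun i => (k : ℂ) * (c1 • z) i) = 0 := fun k => by
      have h5 : (fun i => (k : ℂ) * (c1 • z) i) = fun i => (k : ℂ) * ((c1 : ℂ) * z i) := by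
        funext i
        rw [Pi.smul_apply, nsmul_eq_mul]
      rw [h5]
      exact hvan k
    obtain ⟨W, hW1, hW2, ⟨M, hM1, hM2, u, hu, hlat⟩, k, hk1, hk2, hk3⟩ :=
      hB3 τ hτ (c1 • z) F0 hRR (ZES.H19.van_int hRR hz1 hvan1) ⟨y, hy⟩
    have hcM : c1 * M ≤ c1 * B3 := Nat.mul_le_mul_left c1 hM2
    have e12 : (c1 * M) • z - u = M • c1 • z - u := by
      rw [mul_comm, mul_smul]
    by_cases hW : W = ⊥
    · left
      refine ⟨c1 * M, Nat.mul_pos hc1 hM1, by omega, ?_⟩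
      subst hW
      have h0 : u = 0 := (Submodule.mem_bot ℂ).1 hu
      subst h0
      have e1 : (fun i => ((c1 * M : ℕ) : ℂ) * z i) = (c1 * M) • z - 0 := by
        funext i
        rw [sub_zero, Pi.smul_apply, nsmul_eq_mul]
      rw [e1, e12]
      exact hlat
    · right
      refine ⟨Or.inl hSne, W, hW, hW1, hW2, ⟨c1 * M, Nat.mul_pos hc1 hM1, by omega, u, hu, ?_⟩, k,
        hk1, by omega, fun v hv => hk3 v fun f hf hf0 => hv f hf fun w hw => ?_⟩
      · rw [e12]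
        exact hlat
      · have := hf0 0 w hw
        rw [zero_smul, zero_add] at this
        exact this
  · -- the archimedean place
    push Not at hcase2
    have hlT : ∑ v ∈ T, lN v < lam := by
      by_contra hne
      push Not at hne
      exact hcase ⟨hcase2.le.trans hne, hne⟩
    have hl0' : 0 < lam := lt_of_le_of_lt hTn hlT
    have hx' : ∀ i : SZG.Idx g, x i ≠ 0 ∧
      ∃ μ : ℂ, ∀ ab, φ (x i ab) = μ * Vab τ ab.1 ab.2 (SZG.gam τ z l i) :=
      fun i => hx i (Or.inl (Or.inr hl0'))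
    rcases hB4 K hd φ τ hτ z hz x (fun i => (hx' i).1) (fun i => (hx' i).2) lam h hlam (hh hl0')
      hlq (by
        refine hH'.trans ?_
        have h5 : ∑ v ∈ T, lN v + ∑ v ∈ S, (ev v : ℝ) / (t v : ℝ) * lN v + lam
            ≤ 3 * lam := by linarith
        calc max σ 0 * (∑ v ∈ T, lN v + ∑ v ∈ S, (ev v : ℝ) / (t v : ℝ) * lN v + lam)
            ≤ max σ 0 * (3 * lam) := mul_le_mul_of_nonneg_left h5 hσ
          _ = 3 * max σ 0 * lam := by ring)
      with ⟨M, hM1, hM2, hM3⟩ | ⟨W, hW0, hW1, hW2, ⟨M, hM1, hM2, u, hu, hlat⟩, k, hk1, hk2, hk3⟩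
    · left
      exact ⟨M, hM1, by omega, hM3⟩
    · right
      exact ⟨Or.inr hl0', W, hW0, hW1, hW2, ⟨M, hM1, by omega, u, hu, hlat⟩, k, hk1, by omega,
        hk3⟩

end Pool.Agent.ARC.H40
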