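import Pool.Agent.ARC.StmtsU
import Pool.Agent.Helper49_ARC.ARG

/-!
Squad ARC, row ARL: the theorem with several archimedean places and arbitrary short periods, from
`ArkStatement` and the finite theorem for all large primes.
-/

namespace Pool.Agent.ARC.H40

open scoped BigOperators InnerProductSpace
open Pool.Agent Pool.Agent.THS Pool.Agent.ZES Pool.Agent.ZES.H40

/-- **Row ARL.** -/
theorem arl (hA : ArkStatement) (hF : H49.FinAllStatement) : ArlStatement := by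
  intro g σ G
  have hσ : 0 ≤ max σ 0 := le_max_right _ _
  obtain ⟨n1, hn1⟩ := hA g (2 * max σ 0)
  obtain ⟨n2, hn2⟩ := hF g (2 * max σ 0) G
  obtain ⟨l, hl1, hl2⟩ := Nat.exists_infinite_primes (n1 + n2 + 3)
  have hodd : Odd l := hl2.odd_of_ne_two (by omega)
  refine ⟨l, hl2, hodd, fun c d hc => ?_⟩
  obtain ⟨B1, hB1⟩ := hn1 l hl2 hodd (by omega) d
  obtain ⟨B2, hB2⟩ := hn2 l hl2 hodd (by omega) c d hc
  refine ⟨B1 + B2, ?_⟩
  intro K _ _ hd φ τ hτ z hz S T ev t m x Φ τ' γ' P Q lam hx hT hS hΦ hH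
  have hTn : 0 ≤ ∑ v ∈ T, lN v := Finset.sum_nonneg fun v _ => lN_nonneg v
  have hSn : 0 ≤ ∑ v ∈ S, (ev v : ℝ) / (t v : ℝ) * lN v :=
    Finset.sum_nonneg fun v _ => mul_nonneg (div_nonneg (Nat.cast_nonneg _) (Nat.cast_nonneg _))
      (lN_nonneg v)
  have hPn : 0 ≤ ∑ w ∈ Φ, lam w := Finset.sum_nonneg fun w hw => (hΦ w hw).2.2.1
  have hH' : Real.log (Height.mulHeight (x 0))
      ≤ max σ 0 * (∑ v ∈ T, lN v + ∑ v ∈ S, (ev v : ℝ) / (t v : ℝ) * lN v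
        + ∑ w ∈ Φ, lam w) :=
    hH.trans (mul_le_mul_of_nonneg_right (le_max_left _ _)
      (add_nonneg (add_nonneg hTn hSn) hPn))
  by_cases hcase : ∑ w ∈ Φ, lam w
      ≤ ∑ v ∈ T, lN v + ∑ v ∈ S, (ev v : ℝ) / (t v : ℝ) * lN v
  · have hx' : ∀ i : SZG.Idx g, S.Nonempty ∨ i.2 = 0 → x i ≠ 0 ∧
        ∃ μ : ℂ, ∀ ab, φ (x i ab) = μ * Vab τ ab.1 ab.2 (SZG.gam τ z l i) :=
      fun i hi => hx i (hi.imp Or.inl id)
    have hH2 : Real.log (Height.mulHeight (x 0))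
        ≤ 2 * max σ 0 * (∑ v ∈ T, lN v + ∑ v ∈ S, (ev v : ℝ) / (t v : ℝ) * lN v) := by
      refine hH'.trans ?_
      nlinarith [mul_le_mul_of_nonneg_left hcase hσ]
    rcases hB2 K hd φ τ hτ z hz S T ev t m x hx' hT hS hH2 with
      ⟨M, hM1, hM2, hM3⟩ | ⟨hSne, W, hW1, hW2, hW3, ⟨M, hM1, hM2, hM3⟩, k, hk1, hk2, hk3⟩
    · exact Or.inl ⟨M, hM1, by omega, hM3⟩
    · exact Or.inr ⟨Or.inl hSne, W, hW1, hW2, hW3, ⟨M, hM1, by omega, hM3⟩, k, hk1, by omega, hk3⟩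
  · push Not at hcase
    have hne : Φ.Nonempty := by
      by_contra hne
      rw [Finset.not_nonempty_iff_eq_empty] at hne
      rw [hne, Finset.sum_empty] at hcase
      linarith
    have hx' : ∀ i : SZG.Idx g, x i ≠ 0 ∧
        ∃ μ : ℂ, ∀ ab, φ (x i ab) = μ * Vab τ ab.1 ab.2 (SZG.gam τ z l i) :=
      fun i => hx i (Or.inl (Or.inr hne))
    have hH2 : Real.log (Height.mulHeight (x 0)) ≤ 2 * max σ 0 * ∑ w ∈ Φ, lam w := by
      refine hH'.trans ?_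
      nlinarith [mul_le_mul_of_nonneg_left hcase.le hσ]
    rcases hB1 K hd φ τ hτ z hz x (fun i => (hx' i).1) (fun i => (hx' i).2) Φ τ' γ' P Q lam hΦ hH2
      with ⟨M, hM1, hM2, hM3⟩ | ⟨W, hW1, hW2, hW3, ⟨M, hM1, hM2, hM3⟩, k, hk1, hk2, hk3⟩
    · exact Or.inl ⟨M, hM1, by omega, hM3⟩
    · exact Or.inr ⟨Or.inr hne, W, hW1, hW2, hW3, ⟨M, hM1, by omega, hM3⟩, k, hk1, by omega, hk3⟩

end Pool.Agent.ARC.H40
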