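import Pool.Agent.Helper40_ZES.Fin3
import Pool.Agent.Helper40_ARC.ARL
import Pool.Agent.Helper25_ARC.SUP
import Pool.Agent.Helper90_ARC.AFR
import Pool.Agent.Helper16_ARC.FRZ
import Pool.Agent.Helper62_ARC.DIR
import Pool.Agent.Helper67_ARC.ALX
import Pool.Agent.Helper21_ARC.TGA
import Pool.Agent.Helper58_ARC.TGW
import Pool.Agent.Helper5_ARC.TV1
import Pool.Agent.Helper21_ARC.EIG
import Pool.Agent.Helper62_ARC.EGD
import Pool.Agent.Helper49_ARC.DC1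
import Pool.Agent.Helper17_ARC.GAV
import Pool.Agent.Helper65_ARC.FFB
import Pool.Agent.Helper30_ARC.SYP
import Pool.Agent.Helper15_ARC.AMY
import Pool.Agent.Helper2_ARC.AMZ
import Pool.Agent.Helper9_ARC.DAG
import Pool.Agent.Helper88_ARC.ARK

/-!
Squad ARC: the combination of the rows.
-/

namespace Pool.Agent.ARC.H40

open Pool.Agent.THS Pool.Agent.ZES

/-- The real part of `H(u,u)` is not negative. -/
theorem HY_nonneg' (hG : GavStmt) {g : ℕ} (τ : Matrix (Fin g) (Fin g) ℂ) (hτ : THS.Siegel τ)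
    (u : Fin g → ℂ) : 0 ≤ (HY τ u u).re := by
  obtain ⟨Λ, L, χ, β, -, -, -, -, h, -⟩ := hG g τ hτ
  rw [← h u u]
  have h1 : inner ℂ (Λ u) (Λ u) = ((‖Λ u‖ : ℂ)) ^ 2 := inner_self_eq_norm_sq_to_K (Λ u)
  rw [h1, ← Complex.ofReal_pow, Complex.ofReal_re]
  exact sq_nonneg _

theorem fin1 (hTGB' : SZG.PlgStmt → SZG.QffStmt → TgbStmt)
    (hTGC' : TgaStmt → TgbStmt → TouStatement → SZG.QsaStmt → TgcStmt)
    (hPFA' : HfsStatement → PfaStmt) (hDCP' : Tv1Stmt → DcpStmt) (hDEC' : Dc1Stmt → DecStmt)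
    (hMNB : MnbStmt) : ArlStatement := by
  -- THS part
  have hTBD : TbdStatement :=
    Pool.Agent.Helper92_THS.tbd THS.H77.coe THS.H27.gso THS.H56.pis
  have hTLD : TldStatement := THS.H21.tld hTBD
  have hTPE : TpeStatement := THS.H65.tpe
  have hPRD : PrdStatement := THS.H53.prd hTBD THS.H90.bij
  have hRRE : RreStatement := THS.H62.rre hPRD hTPE
  have hORT : OrtStatement := THS.H70.ort
  have hINV : THS.InvStatement := THS.H62.inv hRRE hORT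
  have hTCP : TcpStatement := THS.H49.tcp hTPE
  have hTNV : TnvStatement := THS.H16.tnv hTBD THS.H53.grd
  have hTCN : TcnStatement := THS.H87.tcn hPRD hTLD hTNV THS.H10.lprF
  have hKMO' : KmoStatement :=
    THS.H2.kmo hPRD hTPE hTLD hTNV hTCN THS.H91.sqm THS.H86.lin
  have hKLA : KlaStatement := THS.H44.kla hKMO' hTPE hTNV
  have hTOU : TouStatement := THS.H60.tou hRRE hINV hTCP hTCN hKLA
  have hLAR : LarStatement := THS.H49.lar hORT
  have hLNA : LnaStatement := THS.H25.lna hORT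
  have hHCP : HcpStatement := THS.H77.hcp THS.H6.hfs
  have hHTK : HtkStatement := Pool.Agent.Helper92_THS.htk hHCP hLAR hLNA THS.H41.prb
  have hHXK : HxkStatement := THS.H41.hxk hHCP hORT
  have hHTZ : HtzStatement := THS.H49.htz hHCP
  have hHXB : HxbStatement := THS.H49.hxb hHTK hHXK hHTZ
  have hPIG : PigStatement := THS.H62.pig hHXB (THS.H27.npp THS.H49.nuf)
  have hRQI : RqiStatement := THS.H62.rqi hORT
  have hTHD : ThdStatement :=
    THS.H44.thd hTOU (THS.H33.sca hRQI) (THS.H21.pxv hRQI) THS.H94.spe (THS.H65.nsd hRQI)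
  have hTDF : SZG.TdfStmt := SZG.H94.tdf hTBD
  -- SZG part
  have hRGI : SZG.RgiStmt := SZG.H27.rgi hORT
  have hQSA : SZG.QsaStmt := SZG.H92.qsa
  have hWXC : SZG.WxcStmt := SZG.H94.wxc
  have hWTX : SZG.WtxStmt := SZG.H77.wtx hQSA
  have hDBL : SZG.DblStmt := SZG.H91.dbl hLAR hLNA
  have hORB : SZG.OrbStmt := SZG.H65.orb
  have hPRG : SZG.PrgStmt := SZG.H41.prg hORB
  have hTBG : SZG.TbgStmt := SZG.H31.tbg hQSA hWXC hDBL hPRG
  have hMPB : SZG.MpbStmt := SZG.H82.mpb hQSA hWXC hTBG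
  have hDTV : SZG.DtvStmt := SZG.H41.dtv hMPB SZG.H41.dbw
  have hWPR : SZG.WprStmt := SZG.H43.wpr
  have hHT2 : SZG.Ht2Stmt := SZG.H67.ht2 hRGI hHCP
  have hRKD : SZG.RkdStmt := SZG.H14.rkd THS.H65.evb
  have hSCG : SZG.ScgStmt := SZG.H40.scg hRGI SZG.H92.plg SZG.H47.qff
  have hTHG : SZG.ThgStmt := SZG.H92.thg hTOU hSCG
  have hFQP : SZG.FqpStmt := SZG.H49.fqp hTOU
  have hFDF : SZG.FdfStmt := SZG.H76.fdf hTDF
  have hFL1 : SZG.Fl1Stmt := SZG.H43.fl1 hTPE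
  have hFL2 : SZG.Fl2Stmt := SZG.H49.fl2 hTBD THS.H53.grd
  have hNOR : SZG.NorStmt := SZG.H71.nor hTHD hPIG THS.H42.prp
  -- ZES part
  have hPWM : PwmStmt := ZES.H91.pwm
  have hUMU : UmuStmt := ZES.H92.umu hPWM
  have hBAD : BadStmt := ZES.H88.bad ZES.H40.lse hUMU
  have hCHN : ChnStmt := ZES.H86.chn hUMU hBAD ZES.H77.dik
  have hPWD : PwdStmt := ZES.H62.pwd
  have hADM : AdmStmt := ZES.H10.adm
  have hVMZ : VmzStmt := ZES.H82.vmz hPWD
  have hALN : AlnStmt := ZES.H62.aln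
  have hPIC : PicStmt := ZES.H86.pic Pool.Agent.Helper91_ZES.PRT.result
  have hFSH : FshStmt := ZES.H44.fsh hPIC
  have hFSR : FsrStmt := ZES.H77.fsr
  have hQPR : QprStmt := ZES.H92.qpr hFSH
  have hDIM : DimStmt := ZES.H42.dim hFSH ZES.H10.fuq hQPR
  have hVTF : VtfStmt := ZES.H39.vtf hTBD hTPE hTDF hFSR
  have hSPN : SpnStmt := ZES.H88.spn hFSH hQPR hDIM hVTF
  have hPR2 : Pr2Stmt := ZES.H49.pr2 hTBD THS.H90.bij
  have hPRV : PrvStmt := ZES.H40.prv hPR2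
  have hCHS : ChsStmt := ZES.H3.chs hPRV hVTF
  have hUVL : UvlStmt := ZES.H81.uvl hTBD
  have hRML : RmlStmt := Pool.Agent.Helper91_ZES.RML.result hTDF hTOU
  have hNVT : NvtStmt := ZES.H51.nvt hSPN hRML
  have hMUL : MulStmt := ZES.H94.mul hORT hVTF hSPN hCHS hUVL hNVT
  have hGAU : GauStmt := ZES.H82.gau ZES.H70.qmx ZES.H92.pqi ZES.H5.ali
  have hTNM : TnmStmt := ZES.H7.tnm hALN
  have hESD : EsdStmt := ZES.H64.esd hTNM
  have hTRF : TrfStmt := ZES.H52.trf hDIM hMUL hRML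
  -- the archimedean part
  have hSUP : SupStmt := H25.sup hTOU hLAR hTDF
  have hAFR : AfrStmt := H90.afr hCHN hPWD hADM hVMZ
  have hFRZ : FrzStmt := H16.frz hAFR hGAU hTRF hESD
  have hALX : AlxStmt := H67.alx hFQP hFDF hFL1 hFL2
  have hTGA : TgaStmt := H21.tga hTOU hRGI
  have hTGB : TgbStmt := hTGB' SZG.H92.plg SZG.H47.qff
  have hTGC : TgcStmt := hTGC' hTGA hTGB hTOU hQSA
  have hTGW : TgwStmt := H58.tgw hTGC hTOU hQSA
  have hPFA : PfaStmt := hPFA' THS.H6.hfs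
  have hTV1 : Tv1Stmt := H5.tv1
  have hEGD : EgdStmt := H62.egd hTV1 H21.eig
  have hDCP : DcpStmt := hDCP' hTV1
  have hDEC : DecStmt := hDEC' H49.dc1
  have hGAV : GavStmt := H17.gav ZES.H70.qmx ZES.H92.pqi ZES.H5.ali
  have hFFB : FfbStmt := H65.ffb hSUP hFQP hFDF
  have hAMY : AmyStmt := H15Y.amy hGAV hDCP hDEC hEGD hMNB hFFB hTRF
  have hAMZ : AmzStmt := H2.amz hTGW hAMY
  have hDAG : DagStmt := H9.dag hAMZ hPFA hDTV hWPR hWTX
  have hARK : ArkStatement := H88.ark hDAG H62.dir hALX hFRZ H30.syp hTHG hNOR hHT2 hRKD ZES.H40.zetFinal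
  exact arl hARK (H49.finAll ZES.H40.szg3 ZES.H40.zetFinal THS.H89.final)

end Pool.Agent.ARC.H40
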