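import Pool.Agent.ARC.StmtsU
import Pool.Agent.Helper66_ARC.MNA

set_option autoImplicit false

/-! # Row MNB: determinant lemma with classes of small rank -/

namespace Pool.Agent.ARC.H40

open scoped BigOperators

/-- If more than `q` rows lie in a space of dimension `q`, the determinant is zero. -/
lemma det_small {ι : Type} [Fintype ι] [DecidableEq ι] (N : Matrix ι ι ℂ) (W : Submodule ℂ (ι → ℂ))
    (q : ℕ) (hW : Module.finrank ℂ W ≤ q) (s : Finset ι) (hs : q < s.card)
    (h : ∀ i ∈ s, N i ∈ W) : N.det = 0 := by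
  by_contra hne
  have hunit : IsUnit N := (Matrix.isUnit_iff_isUnit_det N).2 (Ne.isUnit hne)
  have hlin : LinearIndependent ℂ (fun i => N i) := Matrix.linearIndependent_rows_of_isUnit hunit
  have h1 : LinearIndependent ℂ (fun i : s => N i.1) := hlin.comp _ Subtype.val_injective
  have h2 : LinearIndependent ℂ (fun i : s => (⟨N i.1, h i.1 i.2⟩ : W)) := by
    refine LinearIndependent.of_comp W.subtype ?_
    exact h1
  have h3 := h2.fintype_card_le_finrank
  rw [Fintype.card_coe] at h3
  omega

/-- **Row MNB** -/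
theorem mnb : MnbStmt := by
  classical
  intro ι Γ _ _ _ _ q sm Mk ω χ ε h0 h1 hω hχ hq hb hs
  have hexp : (Matrix.of fun i j => ∑ κ, Mk κ i j).det
      = ∑ φ : ι → Γ, Matrix.det (fun i => Mk (φ i) i) := by
    have h2 := (Matrix.detRowAlternating (n := ι) (R := ℂ)).toMultilinearMap.map_sum
      (fun i (κ : Γ) => Mk κ i)
    have h3 : (Matrix.of fun i j => ∑ κ, Mk κ i j) = fun i => ∑ κ : Γ, Mk κ i := by
      funext i j
      rw [Finset.sum_apply]
      rfl
    rw [← h3] at h2
    exact h2
  have hP : 0 ≤ (∏ i, ω i) * ∏ j, χ j :=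
    mul_nonneg (Finset.prod_nonneg fun i _ => hω i) (Finset.prod_nonneg fun j _ => hχ j)
  have hterm : ∀ φ ∈ (Finset.univ : Finset (ι → Γ)),
      ‖Matrix.det (fun i => Mk (φ i) i)‖ ≤ ((Fintype.card ι).factorial : ℝ) *
        (ε ^ (Fintype.card ι - q * sm.card) * ((∏ i, ω i) * ∏ j, χ j)) := by
    intro φ _
    by_cases hbig : ∃ κ : Γ, q < (Finset.univ.filter fun i => φ i = κ).card
    · obtain ⟨κ, hκ⟩ := hbig
      have hz : Matrix.det (fun i => Mk (φ i) i) = 0 :=
        det_small _ (Submodule.span ℂ (Set.range (Mk κ))) q (hq κ) _ hκ (fun i hi => by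
          have h2 := (Finset.mem_filter.1 hi).2
          show Mk (φ i) i ∈ _
          rw [h2]
          exact Submodule.subset_span ⟨i, rfl⟩)
      rw [hz, norm_zero]
      exact mul_nonneg (Nat.cast_nonneg _) (mul_nonneg (pow_nonneg h0 _) hP)
    · push Not at hbig
      have hc1 : (Finset.univ.filter fun i => φ i ∈ sm).card ≤ q * sm.card := by
        have h2 : (Finset.univ.filter fun i => φ i ∈ sm)
            = sm.biUnion fun κ => Finset.univ.filter fun i => φ i = κ := by
          ext i
          simp
        rw [h2]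
        refine (Finset.card_biUnion_le).trans ?_
        refine (Finset.sum_le_sum fun κ _ => hbig κ).trans ?_
        rw [Finset.sum_const, smul_eq_mul, mul_comm]
      have hc2 : (Finset.univ.filter fun i => φ i ∈ sm).card
          + (Finset.univ.filter fun i => ¬ φ i ∈ sm).card = Fintype.card ι := by
        rw [Finset.card_filter_add_card_filter_not, Finset.card_univ]
      have h3 := Pool.Agent.ARC.H66.leib (fun i => Mk (φ i) i) (fun i => ¬ φ i ∈ sm) ω χ ε
        (fun i j => by
          by_cases h4 : φ i ∈ sm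
          · rw [if_neg (by exact not_not.2 h4), one_mul]
            exact hb _ _ _
          · rw [if_pos h4]
            exact hs _ h4 _ _)
      refine h3.trans (mul_le_mul_of_nonneg_left (mul_le_mul_of_nonneg_right ?_ hP)
        (Nat.cast_nonneg _))
      exact pow_le_pow_of_le_one h0 h1 (by omega)
  rw [hexp]
  refine (norm_sum_le _ _).trans ((Finset.sum_le_sum hterm).trans (le_of_eq ?_))
  rw [Finset.sum_const, Finset.card_univ, Fintype.card_fun, nsmul_eq_mul]
  push_cast
  ring

end Pool.Agent.ARC.H40
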