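import Pool.Agent.Helper40_ARC.Fin1
import Pool.Agent.Helper40_ARC.MNB
import Pool.Agent.Helper92_ARC.TGB
import Pool.Agent.Helper18_ARC.PFA
import Pool.Agent.Helper59_ARC.DCP
import Pool.Agent.Helper74_ARC.DEC

/-!
Squad ARC: the combination of the rows, everything except TGC.
-/

namespace Pool.Agent.ARC.H40

open Pool.Agent.THS Pool.Agent.ZES

theorem fin2 (hTGC : TgaStmt → TgbStmt → TouStatement → SZG.QsaStmt → TgcStmt) : ArlStatement :=
  fin1 H92.tgb hTGC H18.pfa H59.dcp H74.dec mnb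

theorem HY_nonneg {g : ℕ} (τ : Matrix (Fin g) (Fin g) ℂ) (hτ : THS.Siegel τ)
    (u : Fin g → ℂ) : 0 ≤ (HY τ u u).re :=
  HY_nonneg' (H17.gav ZES.H70.qmx ZES.H92.pqi ZES.H5.ali) τ hτ u

end Pool.Agent.ARC.H40
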