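import Pool.Agent.Helper40_ARC.Fin2
import Pool.Agent.Helper42_ARC.TGC

/-!
Squad ARC: the final theorem.
-/

namespace Pool.Agent.ARC.H40

/-- **The theorem**: several finite and infinite places, arbitrary short periods. -/
theorem final : ArlStatement := fin2 H42.tgc

end Pool.Agent.ARC.H40
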